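import Pool.Agent.Helper31.CY.St1

/-!
Project CY, module PTH: a `C¹` path of regular points is on one catenary or one horizontal line.
-/

set_option autoImplicit false

open Set Topology Filter

namespace Pool.Agent.Helper15.CY

open Pool.Agent.Helper31.CY

private theorem sqrt_sinh (y : ℝ) : Real.sqrt (1 + Real.sinh y ^ 2) = Real.cosh y := by
  have h : 1 + Real.sinh y ^ 2 = Real.cosh y ^ 2 := by
    have := Real.cosh_sq y
    linarith
  rw [h, Real.sqrt_sq (Real.cosh_pos y).le]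

private theorem cat_eq (c a r m z0 : ℝ) (hc : 0 < c) (hr : r = c * Real.cosh ((z0 - a) / c))
    (hm : m = Real.sinh ((z0 - a) / c)) (z : ℝ) :
    cat r m (z - z0) = c * Real.cosh ((z - a) / c) := by
  have hch := Real.cosh_pos ((z0 - a) / c)
  unfold cat
  rw [hm, hr, sqrt_sinh, Real.arsinh_sinh, mul_div_assoc, div_self hch.ne', mul_one]
  congr 2
  field_simp
  ring

private theorem kap_eq (c a r m z : ℝ) (hc : 0 < c) (hr : r = c * Real.cosh ((z - a) / c))
    (hm : m = Real.sinh ((z - a) / c)) :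
    r / Real.sqrt (1 + m ^ 2) = c ∧
      z - r / Real.sqrt (1 + m ^ 2) * Real.arsinh m = a := by
  have hch := Real.cosh_pos ((z - a) / c)
  have h1 : r / Real.sqrt (1 + m ^ 2) = c := by
    rw [hm, hr, sqrt_sinh, mul_div_assoc, div_self hch.ne', mul_one]
  refine ⟨h1, ?_⟩
  rw [h1, hm, Real.arsinh_sinh]
  field_simp
  ring

private theorem kap_inv (c a r m z : ℝ) (hr : 0 < r)
    (h1 : r / Real.sqrt (1 + m ^ 2) = c)
    (h2 : z - r / Real.sqrt (1 + m ^ 2) * Real.arsinh m = a) :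
    0 < c ∧ r = c * Real.cosh ((z - a) / c) ∧ m = Real.sinh ((z - a) / c) := by
  have hs : 0 < Real.sqrt (1 + m ^ 2) := Real.sqrt_pos.2 (by positivity)
  have hc : 0 < c := by rw [← h1]; exact div_pos hr hs
  rw [h1] at h2
  have h3 : (z - a) / c = Real.arsinh m := by
    rw [← h2]
    field_simp
    ring
  refine ⟨hc, ?_, ?_⟩
  · rw [h3, Real.cosh_arsinh, ← h1]
    field_simp
  · rw [h3, Real.sinh_arsinh]

open Classical in
private noncomputable def kap (α α' : ℝ → ℝ × ℝ) (t : ℝ) : Option (ℝ × ℝ) :=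
  if (α' t).2 = 0 then none else
    some ((α t).1 / Real.sqrt (1 + ((α' t).1 / (α' t).2) ^ 2),
      (α t).2 - (α t).1 / Real.sqrt (1 + ((α' t).1 / (α' t).2) ^ 2) *
        Real.arsinh ((α' t).1 / (α' t).2))

private theorem hfst {α : ℝ → ℝ × ℝ} {v : ℝ × ℝ} {t : ℝ} (h : HasDerivAt α v t) :
    HasDerivAt (fun s => (α s).1) v.1 t := by
  have := (hasFDerivAt_fst (𝕜 := ℝ) (E := ℝ) (F := ℝ) (p := α t)).comp_hasDerivAt t h
  exact this

private theorem hsnd {α : ℝ → ℝ × ℝ} {v : ℝ × ℝ} {t : ℝ} (h : HasDerivAt α v t) :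
    HasDerivAt (fun s => (α s).2) v.2 t := by
  have := (hasFDerivAt_snd (𝕜 := ℝ) (E := ℝ) (F := ℝ) (p := α t)).comp_hasDerivAt t h
  exact this

private theorem hcurve (c a : ℝ) (hc : 0 < c) {α : ℝ → ℝ × ℝ} {v : ℝ × ℝ} {t : ℝ}
    (h : HasDerivAt α v t) :
    HasDerivAt (fun s => c * Real.cosh (((α s).2 - a) / c))
      (Real.sinh (((α t).2 - a) / c) * v.2) t := by
  have h1 : HasDerivAt (fun s => ((α s).2 - a) / c) (v.2 / c) t :=
    ((hsnd h).sub_const a).div_const c
  have h2 := (h1.cosh).const_mul c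
  have h3 : c * (Real.sinh (((α t).2 - a) / c) * (v.2 / c)) =
      Real.sinh (((α t).2 - a) / c) * v.2 := by
    field_simp
  rw [h3] at h2
  exact h2

/-- local constancy at a catenary point -/
private theorem loc_cat (N : Set (ℝ × ℝ)) (α α' : ℝ → ℝ × ℝ) (t : ℝ)
    (hd : ∀ᶠ s in 𝓝 t, HasDerivAt α (α' s) s) (hne : ∀ᶠ s in 𝓝 t, α' s ≠ 0)
    (hpos : 0 < (α t).1) (hN : ∀ᶠ s in 𝓝 t, α s ∈ N) (hC : CatAt N (α t)) :
    ∀ᶠ s in 𝓝 t, kap α α' s = kap α α' t := by
  obtain ⟨m, ε, hε, hm⟩ := hC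
  set c : ℝ := (α t).1 / Real.sqrt (1 + m ^ 2) with hcdef
  set a : ℝ := (α t).2 - (α t).1 / Real.sqrt (1 + m ^ 2) * Real.arsinh m with hadef
  obtain ⟨hc, hr, hmm⟩ := kap_inv c a (α t).1 m (α t).2 hpos rfl rfl
  have hcont : ContinuousAt α t := hd.self_of_nhds.continuousAt
  have hbox : ∀ᶠ s in 𝓝 t, α s ∈ box (α t) ε := by
    have h1 : ContinuousAt (fun s => |(α s).1 - (α t).1|) t :=
      ((continuousAt_fst.comp hcont).sub continuousAt_const).abs
    have h2 : ContinuousAt (fun s => |(α s).2 - (α t).2|) t :=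
      ((continuousAt_snd.comp hcont).sub continuousAt_const).abs
    have h3 : ∀ᶠ s in 𝓝 t, |(α s).1 - (α t).1| < ε :=
      h1.eventually_lt continuousAt_const (by simpa using hε)
    have h4 : ∀ᶠ s in 𝓝 t, |(α s).2 - (α t).2| < ε :=
      h2.eventually_lt continuousAt_const (by simpa using hε)
    filter_upwards [h3, h4] with s h5 h6 using ⟨h5, h6⟩
  have heq : ∀ᶠ s in 𝓝 t, (α s).1 = c * Real.cosh (((α s).2 - a) / c) := by
    filter_upwards [hbox, hN] with s h1 h2
    have h3 := (hm (α s) h1).1 h2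
    rw [h3]
    exact cat_eq c a (α t).1 m (α t).2 hc hr hmm (α s).2
  have key : ∀ᶠ s in 𝓝 t, kap α α' s = some (c, a) := by
    filter_upwards [heq.eventually_nhds, hd, hne] with s h1 h2 h3
    have h4 := hcurve c a hc h2
    have h5 : HasDerivAt (fun s => (α s).1) (Real.sinh (((α s).2 - a) / c) * (α' s).2) s :=
      h4.congr_of_eventuallyEq h1
    have h6 : (α' s).1 = Real.sinh (((α s).2 - a) / c) * (α' s).2 := (hfst h2).unique h5
    have h7 : (α' s).2 ≠ 0 := by
      intro h0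
      apply h3
      rw [h0, mul_zero] at h6
      exact Prod.ext h6 h0
    have h8 : (α' s).1 / (α' s).2 = Real.sinh (((α s).2 - a) / c) := by
      rw [h6, mul_div_assoc, div_self h7, mul_one]
    obtain ⟨h9, h10⟩ := kap_eq c a (α s).1 ((α' s).1 / (α' s).2) (α s).2 hc h1.self_of_nhds h8
    unfold kap
    rw [if_neg h7]
    rw [h9] at h10 ⊢
    rw [h10]
  have hself := key.self_of_nhds
  filter_upwards [key] with s hs
  rw [hs, hself]

/-- local constancy at a horizontal point -/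
private theorem loc_hor (N : Set (ℝ × ℝ)) (α α' : ℝ → ℝ × ℝ) (t : ℝ)
    (hd : ∀ᶠ s in 𝓝 t, HasDerivAt α (α' s) s)
    (hN : ∀ᶠ s in 𝓝 t, α s ∈ N) (hC : HorAt N (α t)) :
    ∀ᶠ s in 𝓝 t, kap α α' s = kap α α' t := by
  obtain ⟨ε, hε, hm⟩ := hC
  have hcont : ContinuousAt α t := hd.self_of_nhds.continuousAt
  have hbox : ∀ᶠ s in 𝓝 t, α s ∈ box (α t) ε := by
    have h1 : ContinuousAt (fun s => |(α s).1 - (α t).1|) t :=
      ((continuousAt_fst.comp hcont).sub continuousAt_const).abs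
    have h2 : ContinuousAt (fun s => |(α s).2 - (α t).2|) t :=
      ((continuousAt_snd.comp hcont).sub continuousAt_const).abs
    have h3 : ∀ᶠ s in 𝓝 t, |(α s).1 - (α t).1| < ε :=
      h1.eventually_lt continuousAt_const (by simpa using hε)
    have h4 : ∀ᶠ s in 𝓝 t, |(α s).2 - (α t).2| < ε :=
      h2.eventually_lt continuousAt_const (by simpa using hε)
    filter_upwards [h3, h4] with s h5 h6 using ⟨h5, h6⟩
  have heq : ∀ᶠ s in 𝓝 t, (α s).2 = (α t).2 := by
    filter_upwards [hbox, hN] with s h1 h2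
    exact (hm (α s) h1).1 h2
  have key : ∀ᶠ s in 𝓝 t, kap α α' s = none := by
    filter_upwards [heq.eventually_nhds, hd] with s h1 h2
    have h5 : HasDerivAt (fun s => (α s).2) 0 s :=
      (hasDerivAt_const s (α t).2).congr_of_eventuallyEq h1
    have h6 : (α' s).2 = 0 := (hsnd h2).unique h5
    unfold kap
    rw [if_pos h6]
  have hself := key.self_of_nhds
  filter_upwards [key] with s hs
  rw [hs, hself]

/-- two continuous functions which agree on `(0,δ)` agree at `0` -/
private theorem at_zero (f g : ℝ → ℝ) (δ : ℝ) (hδ : 0 < δ) (hf : ContinuousAt f 0)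
    (hg : ContinuousAt g 0) (h : ∀ t, 0 < t → t < δ → f t = g t) : f 0 = g 0 := by
  have h1 : Tendsto f (𝓝[>] 0) (𝓝 (f 0)) := hf.tendsto.mono_left nhdsWithin_le_nhds
  have h2 : Tendsto g (𝓝[>] 0) (𝓝 (g 0)) := hg.tendsto.mono_left nhdsWithin_le_nhds
  have h3 : ∀ᶠ t in 𝓝[>] (0 : ℝ), f t = g t := by
    filter_upwards [Ioo_mem_nhdsGT hδ] with t ht using h t ht.1 ht.2
  exact tendsto_nhds_unique h1 (h2.congr' (h3.mono fun t ht => ht.symm))

theorem hPTH : StPTH := by
  intro N α α' δ hδ hd hc' hne h0 hN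
  have hev : ∀ t : ℝ, 0 < t → t < δ → ∀ᶠ s in 𝓝 t, |s| < δ := by
    intro t ht htδ
    filter_upwards [Ioo_mem_nhds ht htδ] with s hs
    rw [abs_of_pos hs.1]
    exact hs.2
  have hloc : ∀ t : ℝ, 0 < t → t < δ → ∀ᶠ s in 𝓝 t, kap α α' s = kap α α' t := by
    intro t ht htδ
    obtain ⟨hp, hNs, hC⟩ := hN t ht htδ
    have h1 : ∀ᶠ s in 𝓝 t, HasDerivAt α (α' s) s := (hev t ht htδ).mono fun s hs => hd s hs
    have h2 : ∀ᶠ s in 𝓝 t, α' s ≠ 0 := (hev t ht htδ).mono fun s hs => hne s hs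
    rcases hC with hC | hC
    · exact loc_cat N α α' t h1 h2 hp hNs hC
    · exact loc_hor N α α' t h1 hNs hC
  have hconst : ∀ t : ℝ, 0 < t → t < δ → kap α α' t = kap α α' (δ / 2) := by
    intro t ht htδ
    refine (isPreconnected_Ioo (a := (0 : ℝ)) (b := δ)).induction₂
      (fun s t => kap α α' s = kap α α' t) ?_ ?_ ?_ (x := t) (y := δ / 2)
      ⟨ht, htδ⟩ ⟨by linarith, by linarith⟩
    · intro s hs
      exact mem_nhdsWithin_of_mem_nhds ((hloc s hs.1 hs.2).mono fun u hu => hu.symm)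
    · intro a b c _ _ _ h1 h2
      exact h1.trans h2
    · intro a b _ _ h1
      exact h1.symm
  have hd0 : HasDerivAt α (α' 0) 0 := hd 0 (by simpa using hδ)
  have hα0 : ContinuousAt α 0 := hd0.continuousAt
  have hx0 : ContinuousAt (fun s => (α s).1) 0 := continuousAt_fst.comp hα0
  have hz0 : ContinuousAt (fun s => (α s).2) 0 := continuousAt_snd.comp hα0
  have hα'0 : ContinuousAt α' 0 := hc'.continuousAt (Ioo_mem_nhds (by linarith) hδ)
  have hx'0 : ContinuousAt (fun s => (α' s).1) 0 := continuousAt_fst.comp hα'0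
  have hz'0 : ContinuousAt (fun s => (α' s).2) 0 := continuousAt_snd.comp hα'0
  have habs : ∀ t : ℝ, 0 ≤ t → t < δ → |t| < δ := by
    intro t h1 h2
    rwa [abs_of_nonneg h1]
  rcases hk : kap α α' (δ / 2) with _ | ⟨c, a⟩
  · -- horizontal
    right
    have hz : ∀ t : ℝ, 0 < t → t < δ → (α' t).2 = 0 := by
      intro t ht htδ
      have h1 := hconst t ht htδ
      rw [hk] at h1
      by_contra h2
      unfold kap at h1
      rw [if_neg h2] at h1
      exact absurd h1 (by simp)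
    have hz00 : (α' 0).2 = 0 :=
      at_zero (fun s => (α' s).2) (fun _ => 0) δ hδ hz'0 continuousAt_const hz
    refine ⟨hz00, fun t ht htδ => ?_⟩
    have hcon := constant_of_has_deriv_right_zero (f := fun s => (α s).2) (a := 0) (b := t)
      (fun s hs => (hsnd (hd s (habs s hs.1 (lt_of_le_of_lt hs.2 htδ)))).continuousAt.continuousWithinAt)
      (fun s hs => by
        have h1 := hsnd (hd s (habs s hs.1 (lt_trans hs.2 htδ)))
        have h2 : (α' s).2 = 0 := by
          rcases eq_or_lt_of_le hs.1 with h3 | h3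
          · rw [← h3]; exact hz00
          · exact hz s h3 (lt_trans hs.2 htδ)
        rw [h2] at h1
        exact h1.hasDerivWithinAt)
    exact hcon t ⟨ht, le_rfl⟩
  · -- catenary
    left
    have hP : ∀ t : ℝ, 0 < t → t < δ → 0 < c ∧
        (α t).1 = c * Real.cosh (((α t).2 - a) / c) ∧
        (α' t).1 = Real.sinh (((α t).2 - a) / c) * (α' t).2 := by
      intro t ht htδ
      have h1 := hconst t ht htδ
      rw [hk] at h1
      have h2 : (α' t).2 ≠ 0 := by
        intro h2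
        unfold kap at h1
        rw [if_pos h2] at h1
        exact absurd h1 (by simp)
      unfold kap at h1
      rw [if_neg h2] at h1
      have h3 := Option.some.inj h1
      have h4 := congrArg Prod.fst h3
      have h5 := congrArg Prod.snd h3
      obtain ⟨h6, h7, h8⟩ := kap_inv c a (α t).1 ((α' t).1 / (α' t).2) (α t).2
        (hN t ht htδ).1 h4 h5
      refine ⟨h6, h7, ?_⟩
      rw [← h8]
      field_simp
    have hc : 0 < c := (hP (δ / 2) (by linarith) (by linarith)).1
    have hcc : ContinuousAt (fun s => ((α s).2 - a) / c) 0 :=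
      (hz0.sub continuousAt_const).div_const c
    have e1 : (α 0).1 = c * Real.cosh (((α 0).2 - a) / c) :=
      at_zero (fun s => (α s).1) (fun s => c * Real.cosh (((α s).2 - a) / c)) δ hδ hx0
        (continuousAt_const.mul (Real.continuous_cosh.continuousAt.comp hcc))
        (fun t ht htδ => (hP t ht htδ).2.1)
    have e2 : (α' 0).1 = Real.sinh (((α 0).2 - a) / c) * (α' 0).2 :=
      at_zero (fun s => (α' s).1) (fun s => Real.sinh (((α s).2 - a) / c) * (α' s).2) δ hδ hx'0
        ((Real.continuous_sinh.continuousAt.comp hcc).mul hz'0)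
        (fun t ht htδ => (hP t ht htδ).2.2)
    have e3 : (α' 0).2 ≠ 0 := by
      intro h
      rw [h, mul_zero] at e2
      exact hne 0 (by simpa using hδ) (Prod.ext e2 h)
    have e4 : (α' 0).1 / (α' 0).2 = Real.sinh (((α 0).2 - a) / c) := by
      rw [e2, mul_div_assoc, div_self e3, mul_one]
    refine ⟨e3, fun t ht htδ => ?_⟩
    rw [cat_eq c a (α 0).1 ((α' 0).1 / (α' 0).2) (α 0).2 hc e1 e4 (α t).2]
    rcases eq_or_lt_of_le ht with h3 | h3
    · rw [← h3]; exact e1
    · exact (hP t h3 htδ).2.1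

end Pool.Agent.Helper15.CY
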